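import Mathlib
import Pool.Agent.Helper33.NI.Main

/-!
MP_eb515b_lc: an LCL problem with measurable and Baire-measurable solutions and without a Borel solution.

There is an LCL problem `L` with six labels and radius 2 (rooted labelled balls up to isomorphism, no
directions) such that for every `d ≥ 2` the shift graph of the free part of `2^(Z^d)` has a measurable
solution of `L` (for every Borel probability measure on the free part a Borel solution on an invariant
conull Borel set) and a Baire-measurable solution (a Borel solution on an invariant comeagre Borel set),
but no Borel solution.
-/

set_option autoImplicit false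

namespace NI.Shelf

theorem result : ∃ (S : Type) (L : EB.LCL S), Nat.card S = 6 ∧ L.r = 2 ∧ ∀ d : ℕ, 2 ≤ d →
    EB.MeasSol d L ∧ EB.BaireSol d L ∧ ¬ EB.BorelSol (EB.fshift d) L :=
  ⟨NI.Lab, NI.lcl, by simp [NI.Lab], rfl, fun d hd => NI.main d hd⟩

end NI.Shelf
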